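import Pool.Agent.Lib.MP_2674cb_lc.Trace

set_option autoImplicit false

namespace Pool.Agent.Lib.MP_2674cb_lc

variable {α : Type*}

/-- One rewriting step. -/
def RStep (S : Set (List α × List α)) (w w' : List α) : Prop :=
  ∃ x y : List α, ∃ p ∈ S, w = x ++ p.1 ++ y ∧ w' = x ++ p.2 ++ y

lemma wd_mid (x u y : List α) (p : ℤ) (h1 : (x.length : ℤ) ≤ p)
    (h2 : p < x.length + u.length) :
    wd (x ++ u ++ y) p = u[(p - x.length).toNat]? := by
  unfold wd
  rw [if_pos (by omega)]
  rw [List.getElem?_append_left (by rw [List.length_append]; omega)]
  rw [List.getElem?_append_right (by omega)]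
  congr 1
  omega

lemma wd_out (x u v y : List α) (huv : u.length = v.length) (p : ℤ)
    (h : p < x.length ∨ (x.length : ℤ) + u.length ≤ p) :
    wd (x ++ u ++ y) p = wd (x ++ v ++ y) p := by
  unfold wd
  split_ifs with h0
  · rcases h with h | h
    · rw [List.append_assoc, List.append_assoc, List.getElem?_append_left (by omega),
        List.getElem?_append_left (by omega)]
    · rw [List.getElem?_append_right (by rw [List.length_append]; omega),
        List.getElem?_append_right (by rw [List.length_append]; omega),
        List.length_append, List.length_append, huv]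
  · rfl

lemma exists_valid_of_chain (S : Set (List α × List α))
    (hS : ∀ p ∈ S, p.1.length = p.2.length) :
    ∀ (m : ℕ) (f : ℕ → List α), (∀ i < m, RStep S (f i) (f (i + 1))) →
      ∃ d : List (Step α), d.length = m ∧ Valid S (f 0) d := by
  intro m
  induction m with
  | zero =>
    intro f _
    exact ⟨[], rfl, by simp, fun p => by simp [trace_nil, LocalOK]⟩
  | succ m ih =>
    intro f hf
    obtain ⟨d', hd'1, hd'2, hd'3⟩ := ih (fun i => f (i + 1)) (fun i hi => hf (i + 1) (by omega))
    obtain ⟨x, y, r, hr, h0, h1⟩ := hf 0 (by omega)
    have hlen := hS r hr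
    refine ⟨((x.length : ℤ), r) :: d', by simp [hd'1], ?_, ?_⟩
    · intro s hs
      rcases List.mem_cons.1 hs with rfl | hs
      · exact hr
      · exact hd'2 s hs
    · intro p
      have h3 := hd'3 p
      simp only [zero_add] at h3 h1
      cases he : ev ((x.length : ℤ), r) p with
      | none =>
        rw [trace_cons_none he]
        rw [ev_eq_none_iff] at he
        rw [h0, wd_out x r.1 r.2 y hlen p (by simpa using he), ← h1]
        exact h3
      | some e =>
        rw [trace_cons_some he]
        obtain ⟨⟨h4, h5⟩, h6⟩ := (ev_eq_some_iff _ _ _).1 he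
        simp only at h4 h5 h6
        have h7 : wd (f 0) p = r.1[(p - x.length).toNat]? := by
          rw [h0]; exact wd_mid x r.1 y p h4 h5
        have h8 : wd (f 1) p = r.2[(p - x.length).toNat]? := by
          rw [h1]; exact wd_mid x r.2 y p h4 (by omega)
        subst h6
        refine ⟨?_, h7.symm, ?_⟩
        · rw [h7, Option.isSome_iff_exists]
          exact ⟨_, List.getElem?_eq_getElem (by omega)⟩
        · show LocalOK (r.2[(p - x.length).toNat]?) (trace d' p)
          rw [← h8]; exact h3

lemma chain_of_valid (S : Set (List α × List α))
    (hS : ∀ p ∈ S, p.1.length = p.2.length) (hS0 : ∀ p ∈ S, p.1 ≠ []) :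
    ∀ (d : List (Step α)) (l : List α), Valid S l d →
      ∃ f : ℕ → List α, f 0 = l ∧ ∀ i < d.length, RStep S (f i) (f (i + 1)) := by
  intro d
  induction d with
  | nil => intro l _; exact ⟨fun _ => l, rfl, by simp⟩
  | cons s d ih =>
    intro l hv
    obtain ⟨i, r⟩ := s
    have hr : r ∈ S := hv.1 (i, r) List.mem_cons_self
    have hlen := hS r hr
    have hpos : 0 < r.1.length := List.length_pos_iff.2 (hS0 r hr)
    have hloc : ∀ o : ℕ, o < r.1.length → wd l (i + o) = r.1[o]? ∧ (wd l (i + o)).isSome ∧
        LocalOK (r.2[o]?) (trace d (i + o)) := by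
      intro o ho
      have h1 := hv.2 (i + o)
      have he : ev (i, r) (i + o) = some (r, o) := by
        rw [ev_eq_some_iff]
        refine ⟨⟨by simp, by simpa using ho⟩, ?_⟩
        simp
      rw [trace_cons_some he] at h1
      obtain ⟨h2, h3, h4⟩ := h1
      exact ⟨h3.symm, h2, h4⟩
    have hi : 0 ≤ i := by
      have h1 := (hloc 0 hpos).2.1
      by_contra hneg
      unfold wd at h1
      simp only [Nat.cast_zero, add_zero] at h1
      rw [if_neg hneg] at h1
      simp at h1
    obtain ⟨j, rfl⟩ := Int.eq_ofNat_of_zero_le hi
    have hget : ∀ o : ℕ, o < r.1.length → l[j + o]? = r.1[o]? := by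
      intro o ho
      have h1 := (hloc o ho).1
      unfold wd at h1
      rw [if_pos (by omega)] at h1
      rw [← h1]
      congr 1
    have hlast : j + r.1.length ≤ l.length := by
      by_contra hneg
      have h1 := hget (r.1.length - 1) (by omega)
      rw [List.getElem?_eq_none (by omega)] at h1
      rw [List.getElem?_eq_getElem (by omega)] at h1
      simp at h1
    have hl : l = l.take j ++ r.1 ++ l.drop (j + r.1.length) := by
      apply List.ext_getElem?
      intro n
      by_cases h1 : n < j
      · rw [List.append_assoc, List.getElem?_append_left (by rw [List.length_take]; omega)]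
        rw [List.getElem?_take_of_lt h1]
      · by_cases h2 : n < j + r.1.length
        · rw [List.getElem?_append_left (by rw [List.length_append, List.length_take]; omega)]
          rw [List.getElem?_append_right (by rw [List.length_take]; omega)]
          rw [List.length_take, min_eq_left (by omega)]
          rw [← hget (n - j) (by omega)]
          congr 1; omega
        · rw [List.getElem?_append_right (by rw [List.length_append, List.length_take]; omega)]
          rw [List.length_append, List.length_take, min_eq_left (by omega), List.getElem?_drop]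
          congr 1; omega
    set x := l.take j with hx
    set y := l.drop (j + r.1.length) with hy
    have hxl : x.length = j := by rw [hx, List.length_take]; omega
    set l' := x ++ r.2 ++ y with hl'
    have hv' : Valid S l' d := by
      refine ⟨fun s hs => hv.1 s (List.mem_cons_of_mem _ hs), ?_⟩
      intro p
      cases he : ev ((j : ℤ), r) p with
      | none =>
        have h1 := hv.2 p
        rw [trace_cons_none he] at h1
        rw [ev_eq_none_iff] at he
        rw [hl', ← wd_out x r.1 r.2 y hlen p (by rw [hxl]; simpa using he), ← hl]
        exact h1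
      | some e =>
        obtain ⟨⟨h4, h5⟩, h6⟩ := (ev_eq_some_iff _ _ _).1 he
        simp only at h4 h5 h6
        have h7 := (hloc (p - j).toNat (by omega)).2.2
        have h8 : (j : ℤ) + ((p - j).toNat : ℕ) = p := by omega
        rw [h8] at h7
        rw [hl', wd_mid x r.2 y p (by omega) (by omega), hxl]
        exact h7
    obtain ⟨f, hf0, hf⟩ := ih l' hv'
    refine ⟨fun n => match n with | 0 => l | n + 1 => f n, rfl, ?_⟩
    intro i hi
    cases i with
    | zero =>
      refine ⟨x, y, r, hr, hl, ?_⟩
      show f 0 = _
      rw [hf0]
    | succ i =>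
      exact hf i (by simpa using hi)

end Pool.Agent.Lib.MP_2674cb_lc
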