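import Pool.Agent.Lib.MP_2674cb_lc.Conv

set_option autoImplicit false

namespace Pool.Agent.Lib.MP_2674cb_lc

open Finset

variable {α : Type*}

lemma localOK_none {C : List (Ev α)} (h : LocalOK none C) : C = [] := by
  cases C with
  | nil => rfl
  | cons e C => exact absurd h.1 (by simp)

lemma pos_of_trace_ne {S : Set (List α × List α)} {l : List α} {d : List (Step α)}
    (hv : Valid S l d) {p : ℤ} (h : trace d p ≠ []) : 0 ≤ p ∧ p < l.length := by
  have h1 := hv.2 p
  have h2 : wd l p ≠ none := by
    intro h3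
    rw [h3] at h1
    exact h (localOK_none h1)
  unfold wd at h2
  split_ifs at h2 with h3
  · refine ⟨h3, ?_⟩
    by_contra hneg
    exact h2 (List.getElem?_eq_none (by omega))
  · exact absurd rfl h2

lemma trace_ne_of_mem {d : List (Step α)} {s : Step α} (hs : s ∈ d) {p : ℤ}
    (h : (ev s p).isSome) : trace d p ≠ [] := by
  intro h0
  unfold trace at h0
  rw [List.filterMap_eq_nil_iff] at h0
  rw [h0 s hs] at h
  simp at h

lemma length_trace_cons (s : Step α) (d : List (Step α)) (p : ℤ) :
    (trace (s :: d) p).length = (if (ev s p).isSome then 1 else 0) + (trace d p).length := by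
  cases h : ev s p with
  | none => rw [trace_cons_none h]; simp
  | some e => rw [trace_cons_some h]; simp [add_comm]

lemma length_le_sum_aux (n : ℕ) (d : List (Step α))
    (h : ∀ s ∈ d, ∃ p : ℕ, p < n ∧ (ev s (p : ℤ)).isSome) :
    d.length ≤ ∑ p ∈ range n, (trace d (p : ℤ)).length := by
  induction d with
  | nil => simp
  | cons s d ih =>
    have ih' := ih (fun t ht => h t (List.mem_cons_of_mem _ ht))
    obtain ⟨p, hp, hsp⟩ := h s List.mem_cons_self
    simp only [length_trace_cons, sum_add_distrib]
    have h1 : 1 ≤ ∑ p ∈ range n, (if (ev s (p : ℤ)).isSome then 1 else 0) := by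
      calc 1 = (if (ev s (p : ℤ)).isSome then 1 else 0) := by rw [if_pos hsp]
        _ ≤ _ := single_le_sum (f := fun p : ℕ => if (ev s (p : ℤ)).isSome then 1 else 0)
            (fun _ _ => Nat.zero_le _) (mem_range.2 hp)
    rw [List.length_cons]
    omega

lemma length_le_sum {S : Set (List α × List α)} (hS0 : ∀ p ∈ S, p.1 ≠ []) {l : List α}
    {d : List (Step α)} (hv : Valid S l d) :
    d.length ≤ ∑ p ∈ range l.length, (trace d (p : ℤ)).length := by
  apply length_le_sum_aux
  intro s hs
  have hpos : 0 < s.2.1.length := List.length_pos_iff.2 (hS0 s.2 (hv.1 s hs))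
  have he : (ev s s.1).isSome := by
    unfold ev
    rw [if_pos (by omega)]
    rfl
  obtain ⟨h1, h2⟩ := pos_of_trace_ne hv (trace_ne_of_mem hs he)
  obtain ⟨j, hj⟩ := Int.eq_ofNat_of_zero_le h1
  refine ⟨j, by omega, ?_⟩
  rw [← hj]; exact he

lemma sum_le_length (n B : ℕ) (d : List (Step α)) (hB : ∀ s ∈ d, s.2.1.length ≤ B) :
    ∑ p ∈ range n, (trace d (p : ℤ)).length ≤ B * d.length := by
  induction d with
  | nil => simp [trace_nil]
  | cons s d ih =>
    have ih' := ih (fun t ht => hB t (List.mem_cons_of_mem _ ht))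
    simp only [length_trace_cons, sum_add_distrib]
    have h1 : ∑ p ∈ range n, (if (ev s (p : ℤ)).isSome then 1 else 0) ≤ B := by
      rw [← card_filter]
      calc ((range n).filter (fun p : ℕ => (ev s (p : ℤ)).isSome)).card
          ≤ (Ico s.1 (s.1 + s.2.1.length)).card := by
            apply card_le_card_of_injOn (fun p : ℕ => (p : ℤ))
            · intro p hp
              have h2 := (mem_filter.1 hp).2
              have h3 : ev s (p : ℤ) ≠ none := by
                intro h; rw [h] at h2; simp at h2
              rw [Ne, ev_eq_none_iff] at h3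
              simp only [coe_Ico, Set.mem_Ico]
              omega
            · intro a _ b _ hab
              simpa using hab
        _ = s.2.1.length := by simp
        _ ≤ B := hB s List.mem_cons_self
    rw [List.length_cons, mul_add, mul_one]
    omega

lemma mem_trace {d : List (Step α)} {p : ℤ} {e : Ev α} (h : e ∈ trace d p) :
    ∃ s ∈ d, e.1 = s.2 ∧ e.2 < s.2.1.length := by
  unfold trace at h
  obtain ⟨s, hs, hse⟩ := List.mem_filterMap.1 h
  obtain ⟨h1, h2⟩ := (ev_eq_some_iff s p e).1 hse
  refine ⟨s, hs, by rw [h2], ?_⟩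
  rw [h2]
  simp only
  omega

lemma card_short {β : Type*} [DecidableEq β] (P : Finset ℕ) (g : ℕ → List β) (E : Finset β)
    (hg : Set.InjOn g P) (hE : ∀ p ∈ P, ∀ e ∈ g p, e ∈ E) (ℓ : ℕ) :
    (P.filter (fun p => (g p).length ≤ ℓ)).card ≤ (E.card + 1) ^ ℓ := by
  calc (P.filter (fun p => (g p).length ≤ ℓ)).card
      ≤ (Fintype.piFinset (fun _ : Fin ℓ => insertNone E)).card := by
        apply card_le_card_of_injOn (fun p => fun i : Fin ℓ => (g p)[(i : ℕ)]?)
        · intro p hp
          have hp' := mem_filter.1 hp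
          rw [mem_coe, Fintype.mem_piFinset]
          intro i
          rw [mem_insertNone]
          intro a ha
          exact hE p hp'.1 a (List.mem_of_getElem? ha)
        · intro p hp p' hp' h
          have hp1 := mem_filter.1 (mem_coe.1 hp)
          have hp1' := mem_filter.1 (mem_coe.1 hp')
          apply hg hp1.1 hp1'.1
          apply List.ext_getElem?
          intro n
          by_cases hn : n < ℓ
          · exact congrFun h ⟨n, hn⟩
          · rw [List.getElem?_eq_none (by omega), List.getElem?_eq_none (by omega)]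
    _ = (E.card + 1) ^ ℓ := by
        rw [Fintype.card_piFinset]
        simp [card_insertNone]

lemma sum_ge {β : Type*} [DecidableEq β] (P : Finset ℕ) (g : ℕ → List β) (E : Finset β)
    (hg : Set.InjOn g P) (hE : ∀ p ∈ P, ∀ e ∈ g p, e ∈ E) (ℓ : ℕ) :
    ℓ * (P.card - (E.card + 1) ^ ℓ) ≤ ∑ p ∈ P, (g p).length := by
  have h1 := card_short P g E hg hE ℓ
  have h2 : (P.filter (fun p => (g p).length ≤ ℓ)).card +
      (P.filter (fun p => ¬ (g p).length ≤ ℓ)).card = P.card :=
    card_filter_add_card_filter_not (fun p => (g p).length ≤ ℓ)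
  calc ℓ * (P.card - (E.card + 1) ^ ℓ)
      ≤ ℓ * (P.filter (fun p => ¬ (g p).length ≤ ℓ)).card := by
        apply Nat.mul_le_mul_left; omega
    _ = ∑ p ∈ P.filter (fun p => ¬ (g p).length ≤ ℓ), ℓ := by
        rw [sum_const, smul_eq_mul, mul_comm]
    _ ≤ ∑ p ∈ P.filter (fun p => ¬ (g p).length ≤ ℓ), (g p).length := by
        apply sum_le_sum
        intro p hp
        have := (mem_filter.1 hp).2
        omega
    _ ≤ ∑ p ∈ P, (g p).length :=
        sum_le_sum_of_subset (filter_subset _ _)

/-- The main gap lemma: either traces are bounded or there are long derivations of order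
`n log n`. -/
lemma long_of_unbounded (S : Finset (List α × List α)) (B : ℕ)
    (hB : ∀ p ∈ S, p.1.length ≤ B) (K : ℕ)
    (hK : ∃ (l : List α) (d : List (Step α)), Valid (S : Set (List α × List α)) l d ∧
      ∃ p : ℕ, p < l.length ∧ K < (trace d (p : ℤ)).length) :
    ∃ (l : List α) (d : List (Step α)), Valid (S : Set (List α × List α)) l d ∧
      K < d.length ∧
      (4 ≤ l.length → l.length * Nat.log (S.card * B + 2) (l.length / 4) ≤
        4 * B * d.length) := by
  classical
  let Good : ℕ → Prop := fun n => ∃ (l : List α) (d : List (Step α)),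
    Valid (S : Set (List α × List α)) l d ∧ l.length = n ∧
      ∃ p : ℕ, p < l.length ∧ K < (trace d (p : ℤ)).length
  have hex : ∃ n, Good n := by
    obtain ⟨l, d, hv, p, hp, hK⟩ := hK
    exact ⟨l.length, l, d, hv, rfl, p, hp, hK⟩
  obtain ⟨l, d, hv, hln, p, hp, hKp⟩ := Nat.find_spec hex
  have hmin : ∀ m < l.length, ¬ Good m := fun m hm => Nat.find_min hex (hln ▸ hm)
  refine ⟨l, d, hv, ?_, ?_⟩
  · refine lt_of_lt_of_le hKp ?_
    unfold trace
    exact List.length_filterMap_le _ _
  · intro h4
    have hinj1 : Set.InjOn (fun q : ℕ => trace d (q : ℤ)) (range (p + 1) : Finset ℕ) := by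
      have key : ∀ q q' : ℕ, q < q' → q' < p + 1 →
          trace d (q : ℤ) ≠ trace d (q' : ℤ) := by
        intro q q' hqq hq' heq
        obtain ⟨l', d', hv', hl', _, ht⟩ := cut _ l d hv q q' hqq (by omega) heq
        apply hmin l'.length (by omega)
        refine ⟨l', d', hv', rfl, p - (q' - q), by omega, ?_⟩
        rw [ht _ (by omega)]
        have : ((p - (q' - q) : ℕ) : ℤ) + (q' - q) = p := by omega
        rw [this]; exact hKp
      intro q hq q' hq' heq
      simp only [coe_range, Set.mem_Iio] at hq hq'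
      rcases lt_trichotomy q q' with h | h | h
      · exact absurd heq (key q q' h hq')
      · exact h
      · exact absurd heq.symm (key q' q h hq)
    have hinj2 : Set.InjOn (fun q : ℕ => trace d (q : ℤ)) (Ico p l.length : Finset ℕ) := by
      have key : ∀ q q' : ℕ, q < q' → p ≤ q → q' < l.length →
          trace d (q : ℤ) ≠ trace d (q' : ℤ) := by
        intro q q' hqq hq hq' heq
        obtain ⟨l', d', hv', hl', ht, _⟩ := cut _ l d hv q q' hqq (by omega) heq
        apply hmin l'.length (by omega)
        refine ⟨l', d', hv', rfl, p, by omega, ?_⟩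
        rw [ht _ (by omega)]
        exact hKp
      intro q hq q' hq' heq
      simp only [coe_Ico, Set.mem_Ico] at hq hq'
      rcases lt_trichotomy q q' with h | h | h
      · exact absurd heq (key q q' h hq.1 hq'.2)
      · exact h
      · exact absurd heq.symm (key q' q h hq'.1 hq.2)
    obtain ⟨P, hPsub, hPcard, hPinj⟩ : ∃ P : Finset ℕ, P ⊆ range l.length ∧
        l.length ≤ 2 * P.card ∧ Set.InjOn (fun q : ℕ => trace d (q : ℤ)) P := by
      by_cases h : l.length ≤ 2 * (p + 1)
      · refine ⟨range (p + 1), ?_, by simpa using h, hinj1⟩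
        intro q hq
        rw [mem_range] at hq ⊢
        omega
      · refine ⟨Ico p l.length, ?_, ?_, hinj2⟩
        · intro q hq
          rw [mem_Ico] at hq
          rw [mem_range]; exact hq.2
        · rw [Nat.card_Ico]; omega
    let E : Finset (Ev α) := S ×ˢ range (B + 1)
    have hsB : ∀ s ∈ d, s.2.1.length ≤ B := fun s hs => hB s.2 (hv.1 s hs)
    have hE : ∀ q ∈ P, ∀ e ∈ trace d (q : ℤ), e ∈ S ×ˢ range B := by
      intro q _ e he
      obtain ⟨s, hs, h1, h2⟩ := mem_trace he
      rw [mem_product, mem_range]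
      refine ⟨?_, ?_⟩
      · rw [h1]; exact hv.1 s hs
      · exact lt_of_lt_of_le h2 (hsB s hs)
    set ℓ := Nat.log (S.card * B + 2) (l.length / 4) with hℓ
    have h1 := sum_ge P (fun q : ℕ => trace d (q : ℤ)) (S ×ˢ range B) hPinj hE ℓ
    have h2 : ∑ p ∈ P, (trace d (p : ℤ)).length ≤ B * d.length :=
      le_trans (sum_le_sum_of_subset hPsub) (sum_le_length _ B d hsB)
    have h3 : ((S ×ˢ range B).card + 1) ^ ℓ ≤ l.length / 4 := by
      rw [card_product, card_range]
      calc (S.card * B + 1) ^ ℓ ≤ (S.card * B + 2) ^ ℓ := Nat.pow_le_pow_left (by omega) _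
        _ ≤ l.length / 4 := Nat.pow_log_le_self _ (by omega)
    have h4 : l.length ≤ 4 * (P.card - ((S ×ˢ range B).card + 1) ^ ℓ) := by omega
    calc l.length * ℓ ≤ (4 * (P.card - ((S ×ˢ range B).card + 1) ^ ℓ)) * ℓ :=
          Nat.mul_le_mul_right _ h4
      _ = 4 * (ℓ * (P.card - ((S ×ˢ range B).card + 1) ^ ℓ)) := by ring
      _ ≤ 4 * (B * d.length) := by
          apply Nat.mul_le_mul_left
          exact le_trans h1 h2
      _ = 4 * B * d.length := by ring

end Pool.Agent.Lib.MP_2674cb_lc
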