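import Pool.Agent.Lib.MP_2674cb_lc.Count

set_option autoImplicit false

namespace Pool.Agent.Lib.MP_2674cb_lc

open Finset Filter Asymptotics

variable {k : ℕ}

/-- the set of derivation lengths from words of length at most `n` -/
def A (S : Finset (List (Fin k) × List (Fin k))) (n : ℕ) : Set ℕ :=
  {m : ℕ | ∃ f : ℕ → List (Fin k), (f 0).length ≤ n ∧
        ∀ i < m, ∃ x y : List (Fin k), ∃ p ∈ S,
          f i = x ++ p.1 ++ y ∧ f (i + 1) = x ++ p.2 ++ y}

variable (S : Finset (List (Fin k) × List (Fin k)))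
  (hlen : ∀ p ∈ S, p.1.length = p.2.length)
  (hterm : ¬ ∃ f : ℕ → List (Fin k), ∀ i : ℕ, ∃ x y : List (Fin k), ∃ p ∈ S,
        f i = x ++ p.1 ++ y ∧ f (i + 1) = x ++ p.2 ++ y)

include hlen in
lemma length_const (f : ℕ → List (Fin k)) (m : ℕ)
    (hf : ∀ i < m, ∃ x y : List (Fin k), ∃ p ∈ S,
          f i = x ++ p.1 ++ y ∧ f (i + 1) = x ++ p.2 ++ y) :
    ∀ i ≤ m, (f i).length = (f 0).length := by
  intro i
  induction i with
  | zero => intro _; rfl
  | succ i ih =>
    intro hi
    obtain ⟨x, y, p, hp, h1, h2⟩ := hf i (by omega)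
    rw [← ih (by omega), h1, h2]
    simp [hlen p hp]

include hterm in
lemma no_loop (f : ℕ → List (Fin k)) (i j : ℕ) (hij : i < j) (hfij : f i = f j)
    (hf : ∀ t < j, ∃ x y : List (Fin k), ∃ p ∈ S,
          f t = x ++ p.1 ++ y ∧ f (t + 1) = x ++ p.2 ++ y) : False := by
  apply hterm
  refine ⟨fun t => f (i + t % (j - i)), ?_⟩
  intro t
  have hr : t % (j - i) < j - i := Nat.mod_lt _ (by omega)
  obtain ⟨x, y, p, hp, h1, h2⟩ := hf (i + t % (j - i)) (by omega)
  refine ⟨x, y, p, hp, h1, ?_⟩
  show f (i + (t + 1) % (j - i)) = _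
  rw [← h2]
  by_cases h : t % (j - i) + 1 < j - i
  · have h3 : (t + 1) % (j - i) = t % (j - i) + 1 := by
      rw [Nat.add_mod]
      by_cases h1 : j - i = 1
      · omega
      · rw [Nat.mod_eq_of_lt (show 1 < j - i by omega), Nat.mod_eq_of_lt h]
    rw [h3]; congr 1
  · have h3 : t % (j - i) + 1 = j - i := by omega
    have h4 : (t + 1) % (j - i) = 0 := by
      have h5 := Nat.div_add_mod t (j - i)
      have h6 : t + 1 = (j - i) * (t / (j - i)) + (j - i) := by omega
      rw [h6]
      simp
    rw [h4, add_zero, hfij]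
    congr 1; omega

include hlen hterm in
lemma bdd (n : ℕ) : BddAbove (A S n) := by
  have hfin : Set.Finite {l : List (Fin k) | l.length ≤ n} := List.finite_length_le _ _
  refine ⟨hfin.toFinset.card, ?_⟩
  rintro m ⟨f, hf0, hf⟩
  by_contra hm
  push Not at hm
  have hmaps : ∀ i ∈ range (m + 1), f i ∈ hfin.toFinset := by
    intro i hi
    rw [Set.Finite.mem_toFinset]
    show (f i).length ≤ n
    rw [length_const S hlen f m hf i (by rw [mem_range] at hi; omega)]
    exact hf0
  obtain ⟨i, hi, j, hj, hij, hfij⟩ := exists_ne_map_eq_of_card_lt_of_maps_to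
    (by rw [card_range]; omega) hmaps
  rw [mem_range] at hi hj
  rcases lt_or_gt_of_ne hij with h | h
  · exact no_loop S hterm f i j h hfij (fun t ht => hf t (by omega))
  · exact no_loop S hterm f j i h hfij.symm (fun t ht => hf t (by omega))

include hterm in
lemma ne_nil (hlen : ∀ p ∈ S, p.1.length = p.2.length) : ∀ p ∈ S, p.1 ≠ [] := by
  intro p hp h
  apply hterm
  refine ⟨fun _ => [], fun i => ⟨[], [], p, hp, ?_, ?_⟩⟩
  · simp [h]
  · have h2 := hlen p hp
    rw [h] at h2
    have h3 : p.2 = [] := List.length_eq_zero_iff.1 (by simpa using h2.symm)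
    simp [h3]

include hlen hterm in
lemma lower (hne : S.Nonempty) : ∃ c : ℕ, 0 < c ∧ ∀ n : ℕ, n / c ∈ A S n := by
  obtain ⟨⟨u, v⟩, hp⟩ := hne
  have hu := ne_nil S hterm hlen (u, v) hp
  have huv := hlen (u, v) hp
  simp only at hu huv
  refine ⟨u.length, List.length_pos_iff.2 hu, ?_⟩
  intro n
  set m := n / u.length with hm
  refine ⟨fun i => (List.replicate i v).flatten ++ (List.replicate (m - i) u).flatten, ?_, ?_⟩
  · simp only [List.replicate_zero, List.flatten_nil, List.nil_append, Nat.sub_zero]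
    rw [List.length_flatten]
    simp only [List.map_replicate, List.sum_replicate, smul_eq_mul]
    exact Nat.div_mul_le_self _ _
  · intro i hi
    refine ⟨(List.replicate i v).flatten, (List.replicate (m - i - 1) u).flatten, (u, v), hp,
      ?_, ?_⟩
    · have h1 : m - i = (m - i - 1) + 1 := by omega
      simp only
      rw [h1, List.replicate_succ, List.flatten_cons, List.append_assoc]
      simp
    · simp only
      rw [List.replicate_succ', List.flatten_append, List.flatten_singleton]
      have h1 : m - (i + 1) = m - i - 1 := by omega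
      rw [h1]

include hlen hterm in
theorem main_gap
    (hne : S.Nonempty)
    (hlo : (fun n : ℕ => ((sSup (A S n) : ℕ) : ℝ))
      =o[atTop] (fun n : ℕ => (n : ℝ) * Real.log (n : ℝ))) :
    (fun n : ℕ => ((sSup (A S n) : ℕ) : ℝ)) =Θ[atTop] (fun n : ℕ => (n : ℝ)) := by
  classical
  have hbdd := bdd S hlen hterm
  have hS0 := ne_nil S hterm hlen
  have hS0' : ∀ p ∈ (S : Set (List (Fin k) × List (Fin k))), p.1 ≠ [] := fun p hp => hS0 p hp
  have hlen' : ∀ p ∈ (S : Set (List (Fin k) × List (Fin k))), p.1.length = p.2.length :=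
    fun p hp => hlen p hp
  -- monotone
  have hmono : ∀ n n' : ℕ, n ≤ n' → sSup (A S n) ≤ sSup (A S n') := by
    intro n n' h
    have hsub : A S n ⊆ A S n' := by
      rintro m ⟨f, hf0, hf⟩
      exact ⟨f, le_trans hf0 h, hf⟩
    have hne0 : (A S n).Nonempty := ⟨0, fun _ => [], by simp, by simp⟩
    exact csSup_le_csSup (hbdd n') hne0 hsub
  -- valid gives element of A
  have hval : ∀ (l : List (Fin k)) (d : List (Step (Fin k))),
      Valid (S : Set (List (Fin k) × List (Fin k))) l d → d.length ≤ sSup (A S l.length) := by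
    intro l d hv
    apply le_csSup (hbdd _)
    obtain ⟨f, hf0, hf⟩ := chain_of_valid _ hlen' hS0' d l hv
    exact ⟨f, by rw [hf0], hf⟩
  obtain ⟨B, hB⟩ : ∃ B : ℕ, ∀ p ∈ S, p.1.length ≤ B :=
    ⟨S.sup (fun p => p.1.length), fun p hp => le_sup (f := fun p : List (Fin k) × List (Fin k) =>
      p.1.length) hp⟩
  -- bounded traces
  have hK : ∃ K : ℕ, ∀ (l : List (Fin k)) (d : List (Step (Fin k))),
      Valid (S : Set (List (Fin k) × List (Fin k))) l d →
      ∀ p : ℕ, p < l.length → (trace d (p : ℤ)).length ≤ K := by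
    by_contra hcon
    push Not at hcon
    -- the base of the logarithm
    set b : ℕ := S.card * B + 2 with hb
    have hlogb : 0 < Real.log (b : ℝ) := Real.log_pos (by
      rw [hb]; push_cast; nlinarith [Nat.zero_le (S.card * B), (Nat.cast_nonneg (S.card * B) : (0:ℝ) ≤ _),
        (by push_cast; ring : ((S.card * B : ℕ) : ℝ) = (S.card : ℝ) * B)])
    have hBpos : (0 : ℝ) < (B : ℝ) + 1 := by positivity
    set c : ℝ := 1 / (16 * ((B : ℝ) + 1) * Real.log b) with hc
    have hcpos : 0 < c := by positivity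
    have h1 := hlo.def hcpos
    rw [eventually_atTop] at h1
    obtain ⟨N1, hN1⟩ := h1
    -- eventually log n is large
    have h2 : ∀ᶠ n : ℕ in atTop, 2 * (Real.log 4 + Real.log b) < Real.log (n : ℝ) :=
      (Real.tendsto_log_atTop.comp tendsto_natCast_atTop_atTop).eventually_gt_atTop _
    rw [eventually_atTop] at h2
    obtain ⟨N2, hN2⟩ := h2
    set N := max (max N1 N2) 4 with hN
    obtain ⟨l, d, hv, hKd, hlong⟩ := long_of_unbounded S B hB (sSup (A S N))
      (by
        obtain ⟨l, d, hv, p, hp, h⟩ := hcon (sSup (A S N))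
        exact ⟨l, d, hv, p, hp, h⟩)
    have hlN : N < l.length := by
      by_contra hle
      push Not at hle
      have h3 := hval l d hv
      have h4 := hmono _ _ hle
      omega
    have hl1 : N1 ≤ l.length := le_trans (le_trans (le_max_left _ _) (le_max_left _ _)) hlN.le
    have hl2 : N2 ≤ l.length := le_trans (le_trans (le_max_right _ _) (le_max_left _ _)) hlN.le
    have hl4 : 4 ≤ l.length := le_trans (le_max_right _ _) hlN.le
    have h3 := hN1 l.length hl1
    have h4 := hN2 l.length hl2
    have h5 := hlong hl4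
    have h6 := hval l d hv
    set n := l.length with hn
    have hnpos : (0 : ℝ) < n := by
      have : (4 : ℝ) ≤ n := by exact_mod_cast hl4
      linarith
    have hlogn : 0 < Real.log n := by
      have h7 : 0 < Real.log 4 := Real.log_pos (by norm_num)
      linarith
    rw [Real.norm_eq_abs, Real.norm_eq_abs, abs_of_nonneg (Nat.cast_nonneg _),
      abs_of_pos (mul_pos hnpos hlogn)] at h3
    -- Nat.log lower bound
    set ℓ := Nat.log b (n / 4) with hℓ
    have h7 : n / 4 < b ^ (ℓ + 1) := Nat.lt_pow_succ_log_self (by omega) _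
    have h8 : (n : ℝ) ≤ 4 * (b : ℝ) ^ (ℓ + 1) := by
      have : n ≤ 4 * b ^ (ℓ + 1) := by omega
      exact_mod_cast this
    have h9 : Real.log n ≤ Real.log 4 + (ℓ + 1) * Real.log b := by
      calc Real.log n ≤ Real.log (4 * (b : ℝ) ^ (ℓ + 1)) := Real.log_le_log hnpos h8
        _ = Real.log 4 + (ℓ + 1) * Real.log b := by
          rw [Real.log_mul (by norm_num) (by positivity), Real.log_pow]
          push_cast; ring
    have h10 : Real.log n < 2 * (ℓ * Real.log b) := by nlinarith
    have h11 : (n : ℝ) * ℓ ≤ 4 * B * (c * (n * Real.log n)) := by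
      have h12 : ((n * ℓ : ℕ) : ℝ) ≤ ((4 * B * d.length : ℕ) : ℝ) := by exact_mod_cast h5
      push_cast at h12
      have h13 : (d.length : ℝ) ≤ c * (n * Real.log n) :=
        le_trans (by exact_mod_cast h6) h3
      calc (n : ℝ) * ℓ ≤ 4 * B * d.length := h12
        _ ≤ _ := by
          apply mul_le_mul_of_nonneg_left h13
          positivity
    have h12 : 4 * (B : ℝ) * (c * (n * Real.log n)) * (4 * Real.log b) ≤ n * Real.log n := by
      have h13 : c * (16 * ((B : ℝ) + 1) * Real.log b) = 1 := by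
        rw [hc]; field_simp
      have h14 : 4 * (B : ℝ) * (c * (n * Real.log n)) * (4 * Real.log b) =
          (c * (16 * (B : ℝ) * Real.log b)) * (n * Real.log n) := by ring
      rw [h14]
      have h15 : c * (16 * (B : ℝ) * Real.log b) ≤ 1 := by
        rw [← h13]
        apply mul_le_mul_of_nonneg_left _ hcpos.le
        nlinarith
      calc _ ≤ 1 * (n * Real.log n) :=
            mul_le_mul_of_nonneg_right h15 (mul_pos hnpos hlogn).le
        _ = _ := one_mul _
    have h13 : (n : ℝ) * ℓ * (4 * Real.log b) ≤ n * Real.log n :=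
      le_trans (mul_le_mul_of_nonneg_right h11 (by positivity)) h12
    have h14 : (n : ℝ) * Real.log n < n * (2 * (ℓ * Real.log b)) :=
      mul_lt_mul_of_pos_left h10 hnpos
    nlinarith [mul_pos hnpos hlogn]
  obtain ⟨K, hK⟩ := hK
  constructor
  · -- upper bound
    apply IsBigO.of_bound (K : ℝ)
    filter_upwards with n
    rw [Real.norm_eq_abs, Real.norm_eq_abs, abs_of_nonneg (Nat.cast_nonneg _),
      abs_of_nonneg (Nat.cast_nonneg _)]
    have hne0 : (A S n).Nonempty := ⟨0, fun _ => [], by simp, by simp⟩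
    have h1 : sSup (A S n) ≤ K * n := by
      apply csSup_le hne0
      rintro m ⟨f, hf0, hf⟩
      obtain ⟨d, hd, hv⟩ := exists_valid_of_chain (S : Set (List (Fin k) × List (Fin k))) hlen' m f hf
      have h2 := length_le_sum hS0' hv
      have h3 : ∑ p ∈ range (f 0).length, (trace d (p : ℤ)).length ≤
          ∑ p ∈ range (f 0).length, K :=
        sum_le_sum (fun p hp => hK _ _ hv p (mem_range.1 hp))
      rw [sum_const, card_range, smul_eq_mul] at h3
      calc m = d.length := hd.symm
        _ ≤ (f 0).length * K := le_trans h2 h3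
        _ ≤ n * K := Nat.mul_le_mul_right _ hf0
        _ = K * n := mul_comm _ _
    exact_mod_cast h1
  · -- lower bound
    obtain ⟨c, hc, hlow⟩ := lower S hlen hterm hne
    apply IsBigO.of_bound (2 * (c : ℝ))
    filter_upwards [eventually_ge_atTop c] with n hn
    rw [Real.norm_eq_abs, Real.norm_eq_abs, abs_of_nonneg (Nat.cast_nonneg _),
      abs_of_nonneg (Nat.cast_nonneg _)]
    have h1 : n / c ≤ sSup (A S n) := le_csSup (hbdd n) (hlow n)
    have h2 : n ≤ 2 * c * (n / c) := by
      have h3 := Nat.div_add_mod n c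
      have h4 : n % c < c := Nat.mod_lt _ hc
      have h5 : 1 ≤ n / c := (Nat.one_le_div_iff hc).2 hn
      nlinarith
    have h3 : n ≤ 2 * c * sSup (A S n) := le_trans h2 (Nat.mul_le_mul_left _ h1)
    exact_mod_cast h3

end Pool.Agent.Lib.MP_2674cb_lc
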