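import Mathlib

set_option autoImplicit false

namespace Pool.Agent.Lib.MP_2674cb_lc

variable {α : Type*}

/-- A step: start position (an integer) and the rule applied there. -/
abbrev Step (α : Type*) := ℤ × (List α × List α)

/-- An event: a rule and an offset inside it. -/
abbrev Ev (α : Type*) := (List α × List α) × ℕ

/-- The event which a step causes at position `p`, if it touches `p`. -/
def ev (s : Step α) (p : ℤ) : Option (Ev α) :=
  if s.1 ≤ p ∧ p < s.1 + s.2.1.length then some (s.2, (p - s.1).toNat) else none

/-- The trace of a list of steps at position `p`. -/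
def trace (d : List (Step α)) (p : ℤ) : List (Ev α) := d.filterMap (fun s => ev s p)

/-- Local consistency of a trace with an initial letter. -/
def LocalOK : Option α → List (Ev α) → Prop
  | _, [] => True
  | a, e :: C => a.isSome ∧ e.1.1[e.2]? = a ∧ LocalOK (e.1.2[e.2]?) C

/-- Word as a partial function on the integers. -/
def wd (l : List α) (p : ℤ) : Option α := if 0 ≤ p then l[p.toNat]? else none

/-- Validity of a step list on a word. -/
def Valid (S : Set (List α × List α)) (l : List α) (d : List (Step α)) : Prop :=
  (∀ s ∈ d, s.2 ∈ S) ∧ ∀ p, LocalOK (wd l p) (trace d p)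

lemma ev_eq_none_iff (s : Step α) (p : ℤ) :
    ev s p = none ↔ (p < s.1 ∨ s.1 + s.2.1.length ≤ p) := by
  unfold ev
  split_ifs with h
  · simp only [false_iff]; omega
  · simp only [true_iff]; omega

lemma ev_eq_some_iff (s : Step α) (p : ℤ) (e : Ev α) :
    ev s p = some e ↔ (s.1 ≤ p ∧ p < s.1 + s.2.1.length) ∧ e = (s.2, (p - s.1).toNat) := by
  unfold ev
  split_ifs with h
  · simp [h, eq_comm]
  · simp [h]

lemma trace_nil (p : ℤ) : trace ([] : List (Step α)) p = [] := rfl

lemma trace_cons_none {s : Step α} {p : ℤ} (h : ev s p = none) (d : List (Step α)) :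
    trace (s :: d) p = trace d p := by
  simp [trace, h]

lemma trace_cons_some {s : Step α} {p : ℤ} {e : Ev α} (h : ev s p = some e)
    (d : List (Step α)) : trace (s :: d) p = e :: trace d p := by
  simp [trace, h]

/-- The merge lemma: a left history and a right history with the same trace at `q` merge. -/
lemma merge_exists (q : ℤ) : ∀ (L R : List (Step α)), (∀ s ∈ L, s.1 ≤ q) →
    (∀ s ∈ R, q < s.1 + s.2.1.length) → trace L q = trace R q →
    ∃ D : List (Step α), (∀ s ∈ D, s ∈ L ∨ s ∈ R) ∧ (∀ p ≤ q, trace D p = trace L p) ∧
      (∀ p, q ≤ p → trace D p = trace R p) := by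
  intro L
  induction L with
  | nil =>
    intro R _ hR ht
    refine ⟨R, fun s hs => Or.inr hs, ?_, fun p _ => rfl⟩
    intro p hp
    rw [trace_nil] at ht ⊢
    have h2 : ∀ s ∈ R, ev s q = none := by
      have := ht.symm
      unfold trace at this
      rw [List.filterMap_eq_nil_iff] at this
      exact this
    unfold trace
    rw [List.filterMap_eq_nil_iff]
    intro s hs
    have h3 := (ev_eq_none_iff s q).1 (h2 s hs)
    have h4 := hR s hs
    rw [ev_eq_none_iff]
    omega
  | cons l L' ihL =>
    intro R hL hR ht
    cases hl : ev l q with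
    | none =>
      have h1 : trace L' q = trace R q := by rw [← ht, trace_cons_none hl]
      obtain ⟨D, hD1, hD2, hD3⟩ := ihL R (fun s hs => hL s (List.mem_cons_of_mem _ hs)) hR h1
      have hl1 := hL l List.mem_cons_self
      have hl2 := (ev_eq_none_iff l q).1 hl
      refine ⟨l :: D, ?_, ?_, ?_⟩
      · intro s hs
        rcases List.mem_cons.1 hs with rfl | hs
        · exact Or.inl List.mem_cons_self
        · rcases hD1 s hs with h | h
          · exact Or.inl (List.mem_cons_of_mem _ h)
          · exact Or.inr h
      · intro p hp
        cases hlp : ev l p with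
        | none => rw [trace_cons_none hlp, trace_cons_none hlp, hD2 p hp]
        | some e => rw [trace_cons_some hlp, trace_cons_some hlp, hD2 p hp]
      · intro p hp
        have hlp : ev l p = none := by rw [ev_eq_none_iff]; omega
        rw [trace_cons_none hlp, hD3 p hp]
    | some e =>
      rw [trace_cons_some hl] at ht
      induction R with
      | nil => simp [trace_nil] at ht
      | cons r R' ihR =>
        cases hr : ev r q with
        | none =>
          rw [trace_cons_none hr] at ht
          obtain ⟨D, hD1, hD2, hD3⟩ := ihR (fun s hs => hR s (List.mem_cons_of_mem _ hs)) ht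
          have hr1 := hR r List.mem_cons_self
          have hr2 := (ev_eq_none_iff r q).1 hr
          refine ⟨r :: D, ?_, ?_, ?_⟩
          · intro s hs
            rcases List.mem_cons.1 hs with rfl | hs
            · exact Or.inr List.mem_cons_self
            · rcases hD1 s hs with h | h
              · exact Or.inl h
              · exact Or.inr (List.mem_cons_of_mem _ h)
          · intro p hp
            have hrp : ev r p = none := by rw [ev_eq_none_iff]; omega
            rw [trace_cons_none hrp, hD2 p hp]
          · intro p hp
            cases hrp : ev r p with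
            | none => rw [trace_cons_none hrp, trace_cons_none hrp, hD3 p hp]
            | some e => rw [trace_cons_some hrp, trace_cons_some hrp, hD3 p hp]
        | some e' =>
          rw [trace_cons_some hr] at ht
          have ht1 : e = e' := (List.cons.inj ht).1
          have ht2 : trace L' q = trace R' q := (List.cons.inj ht).2
          obtain ⟨D, hD1, hD2, hD3⟩ := ihL R' (fun s hs => hL s (List.mem_cons_of_mem _ hs))
            (fun s hs => hR s (List.mem_cons_of_mem _ hs)) ht2
          have hlr : l = r := by
            obtain ⟨h1, h2⟩ := (ev_eq_some_iff l q e).1 hl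
            obtain ⟨h3, h4⟩ := (ev_eq_some_iff r q e').1 hr
            rw [ht1, h4] at h2
            have h5 : r.2 = l.2 := congrArg Prod.fst h2
            have h6 : (q - r.1).toNat = (q - l.1).toNat := congrArg Prod.snd h2
            refine Prod.ext ?_ h5.symm
            omega
          refine ⟨l :: D, ?_, ?_, ?_⟩
          · intro s hs
            rcases List.mem_cons.1 hs with rfl | hs
            · exact Or.inl List.mem_cons_self
            · rcases hD1 s hs with h | h
              · exact Or.inl (List.mem_cons_of_mem _ h)
              · exact Or.inr (List.mem_cons_of_mem _ h)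
          · intro p hp
            cases hlp : ev l p with
            | none => rw [trace_cons_none hlp, trace_cons_none hlp, hD2 p hp]
            | some e => rw [trace_cons_some hlp, trace_cons_some hlp, hD2 p hp]
          · intro p hp
            rw [← hlr]
            cases hlp : ev l p with
            | none => rw [trace_cons_none hlp, trace_cons_none hlp, hD3 p hp]
            | some e => rw [trace_cons_some hlp, trace_cons_some hlp, hD3 p hp]

lemma trace_filter_of (d : List (Step α)) (P : Step α → Bool) (p : ℤ)
    (h : ∀ s ∈ d, P s = false → ev s p = none) : trace (d.filter P) p = trace d p := by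
  induction d with
  | nil => rfl
  | cons s d ih =>
    have ih' := ih (fun t ht => h t (List.mem_cons_of_mem _ ht))
    cases hP : P s with
    | true =>
      rw [List.filter_cons_of_pos hP]
      cases hs : ev s p with
      | none => rw [trace_cons_none hs, trace_cons_none hs, ih']
      | some e => rw [trace_cons_some hs, trace_cons_some hs, ih']
    | false =>
      rw [List.filter_cons_of_neg (by simp [hP])]
      rw [trace_cons_none (h s List.mem_cons_self hP), ih']

/-- shift a step by an integer -/
def shift (δ : ℤ) (s : Step α) : Step α := (s.1 - δ, s.2)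

lemma ev_shift (δ : ℤ) (s : Step α) (p : ℤ) : ev (shift δ s) p = ev s (p + δ) := by
  unfold ev shift
  have h1 : (s.1 - δ ≤ p ∧ p < s.1 - δ + s.2.1.length) ↔
      (s.1 ≤ p + δ ∧ p + δ < s.1 + s.2.1.length) := by omega
  have h2 : p - (s.1 - δ) = p + δ - s.1 := by ring
  simp only [h1, h2]

lemma trace_map_shift (δ : ℤ) (d : List (Step α)) (p : ℤ) :
    trace (d.map (shift δ)) p = trace d (p + δ) := by
  induction d with
  | nil => rfl
  | cons s d ih =>
    rw [List.map_cons]
    cases hs : ev s (p + δ) with
    | none =>
      have h : ev (shift δ s) p = none := by rw [ev_shift, hs]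
      rw [trace_cons_none h, trace_cons_none hs, ih]
    | some e =>
      have h : ev (shift δ s) p = some e := by rw [ev_shift, hs]
      rw [trace_cons_some h, trace_cons_some hs, ih]

lemma wd_cut_left (l : List α) (q q' : ℕ) (hq : q < l.length) (p : ℤ) (hp : p ≤ q) :
    wd (l.take (q + 1) ++ l.drop (q' + 1)) p = wd l p := by
  unfold wd
  split_ifs with h
  · rw [List.getElem?_append_left (by rw [List.length_take]; omega)]
    rw [List.getElem?_take_of_lt (by omega)]
  · rfl

lemma wd_cut_right (l : List α) (q q' : ℕ) (hqq : q ≤ q') (hq : q < l.length) (p : ℤ)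
    (hp : (q : ℤ) < p) :
    wd (l.take (q + 1) ++ l.drop (q' + 1)) p = wd l (p + (q' - q)) := by
  unfold wd
  rw [if_pos (by omega), if_pos (by omega)]
  rw [List.getElem?_append_right (by rw [List.length_take]; omega)]
  rw [List.getElem?_drop, List.length_take]
  congr 1
  omega

/-- Cut and paste. -/
lemma cut (S : Set (List α × List α)) (l : List α) (d : List (Step α)) (hv : Valid S l d)
    (q q' : ℕ) (hqq : q < q') (hq' : q' < l.length)
    (ht : trace d q = trace d q') :
    ∃ (l' : List α) (d' : List (Step α)), Valid S l' d' ∧ l'.length = l.length - (q' - q) ∧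
      (∀ p : ℤ, p ≤ q → trace d' p = trace d p) ∧
      (∀ p : ℤ, q ≤ p → trace d' p = trace d (p + (q' - q))) := by
  set L := d.filter (fun s => decide (s.1 ≤ (q : ℤ))) with hL
  set R := (d.filter (fun s => decide ((q' : ℤ) < s.1 + s.2.1.length))).map
    (shift ((q' : ℤ) - q)) with hR
  have hLt : ∀ p : ℤ, p ≤ q → trace L p = trace d p := by
    intro p hp
    rw [hL]
    apply trace_filter_of
    intro s _ h
    have h' : ¬ (s.1 ≤ (q : ℤ)) := by simpa using h
    rw [ev_eq_none_iff]; omega
  have hRt : ∀ p : ℤ, q ≤ p → trace R p = trace d (p + (q' - q)) := by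
    intro p hp
    rw [hR, trace_map_shift]
    apply trace_filter_of
    intro s _ h
    have h' : ¬ ((q' : ℤ) < s.1 + s.2.1.length) := by simpa using h
    rw [ev_eq_none_iff]; omega
  have h1 : ∀ s ∈ L, s.1 ≤ (q : ℤ) := by
    intro s hs
    have := (List.mem_filter.1 hs).2
    simpa using this
  have h2 : ∀ s ∈ R, (q : ℤ) < s.1 + s.2.1.length := by
    intro s hs
    obtain ⟨t, ht, rfl⟩ := List.mem_map.1 hs
    have h3 := (List.mem_filter.1 ht).2
    have h4 : (q' : ℤ) < t.1 + t.2.1.length := by simpa using h3
    show (q : ℤ) < t.1 - ((q' : ℤ) - q) + t.2.1.length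
    omega
  have h3 : trace L q = trace R q := by
    rw [hLt q le_rfl, hRt q le_rfl, ht]
    congr 1; ring
  obtain ⟨D, hD1, hD2, hD3⟩ := merge_exists (q : ℤ) L R h1 h2 h3
  refine ⟨l.take (q + 1) ++ l.drop (q' + 1), D, ⟨?_, ?_⟩, ?_, ?_, ?_⟩
  · intro s hs
    rcases hD1 s hs with h | h
    · exact hv.1 s (List.mem_filter.1 h).1
    · obtain ⟨t, ht, rfl⟩ := List.mem_map.1 h
      exact hv.1 t (List.mem_filter.1 ht).1
  · intro p
    by_cases hp : p ≤ q
    · rw [hD2 p hp, hLt p hp, wd_cut_left l q q' (by omega) p hp]
      exact hv.2 p
    · rw [hD3 p (by omega), hRt p (by omega), wd_cut_right l q q' (by omega) (by omega) p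
        (by omega)]
      exact hv.2 _
  · rw [List.length_append, List.length_take, List.length_drop]; omega
  · intro p hp; rw [hD2 p hp, hLt p hp]
  · intro p hp; rw [hD3 p hp, hRt p hp]

end Pool.Agent.Lib.MP_2674cb_lc
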